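import Mathlib
import Pool.Agent.Helper25.HTwo.Epi
import Pool.Agent.Helper25.HTwo.Cross

set_option autoImplicit false

/-!
# MP_cfc732_al, Q1: an epiRegular group without a rational cross section

The group is `H2` (Houghton's group `H₂`): the permutations of `ℤ` that agree with a translation
outside a finite set. It is defined in `Pool.Agent.Helper25.HTwo.Group`; the evaluation map `ev`
is defined in `Pool.Agent.Helper25.HTwo.Lang`.
-/

namespace Pool.Agent.Results.MP_cfc732_al.HoughtonTwo

open Pool.Agent.Helper25.HTwo

/-- `G` is epiRegular: for some finite `X ⊆ G` that generates `G` as a monoid there is a regular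
language of nonempty words over `X` whose image under evaluation is `G ∖ {1}`. -/
def IsEpiRegular (G : Type) [Group G] : Prop :=
  ∃ X : Finset G, Submonoid.closure (X : Set G) = ⊤ ∧
    ∃ L : Language X, L.IsRegular ∧ [] ∉ L ∧ ev X '' {w | w ∈ L} = {g : G | g ≠ 1}

/-- `G` has a rational cross section: for some finite `X ⊆ G` that generates `G` as a monoid there
is a regular language over `X` that evaluation maps bijectively onto `G`. -/
def HasRationalCrossSection (G : Type) [Group G] : Prop :=
  ∃ X : Finset G, Submonoid.closure (X : Set G) = ⊤ ∧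
    ∃ L : Language X, L.IsRegular ∧ Set.BijOn (ev X) {w | w ∈ L} Set.univ

/-- The answer to Q1 is yes: the finitely generated group `H₂` of all permutations of `ℤ` that are
a translation outside a finite set is epiRegular and has no rational cross section. -/
theorem result : Group.FG H2 ∧ IsEpiRegular H2 ∧ ¬ HasRationalCrossSection H2 := by
  refine ⟨?_, ?_, ?_⟩
  · rw [Group.fg_iff_monoid_fg]
    exact ⟨⟨alph, alph_top⟩⟩
  · obtain ⟨L, hL, hL2⟩ := rat_ne_one
    refine ⟨alph, alph_top, L, hL, ?_, hL2⟩
    intro h
    have h1 : (1 : H2) ∈ ev alph '' L := ⟨[], h, ev_nil alph⟩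
    rw [hL2] at h1
    exact h1 rfl
  · rintro ⟨X, _, L, hL, hbij⟩
    refine no_cross X L hL hbij.injOn ?_
    intro g
    obtain ⟨w, hw, hwg⟩ := hbij.surjOn (Set.mem_univ g)
    exact ⟨w, hw, hwg⟩

end Pool.Agent.Results.MP_cfc732_al.HoughtonTwo
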